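import Pool.Agent.Y276.WL.Lp

/-!
# MP_abad15_an, Q1: the weak Lebesgue property, general Banach spaces and all `ℓ^p(Γ)`

* Every real normed space `X` whose dual is the closed linear span of fewer than `non(SN)`
  functionals has the weak Lebesgue property.
* Every `X` with a biorthogonal system of at least `non(SN)` elements which is small on flat
  vectors fails it.
* Hence, for `1 < p < ∞`, `ℓ^p(Γ)` has the weak Lebesgue property if and only if
  `#Γ < non(SN)`; the case `p = 2` is the answer to the question.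
-/

set_option autoImplicit false

namespace Pool.Agent.Results.MP_abad15_an.BanachSpaces

open Cardinal Pool.Agent.Y276.WL
open scoped ENNReal

universe u v

/-- A biorthogonal system. -/
def Biorthogonal {X : Type v} [NormedAddCommGroup X] [NormedSpace ℝ X] {Γ : Type u}
    (x : Γ → X) (g : Γ → StrongDual ℝ X) : Prop :=
  (∀ γ, g γ (x γ) = 1) ∧ ∀ γ β, γ ≠ β → g γ (x β) = 0

/-- If the dual is the closed linear span of fewer than `non(SN)` functionals, then `X` has the
weak Lebesgue property. -/
def SmallDual (X : Type v) [NormedAddCommGroup X] [NormedSpace ℝ X] : Prop :=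
  ∀ D : Set (StrongDual ℝ X), #D < Cardinal.lift.{v} nonSN →
    Dense (Submodule.span ℝ D : Set (StrongDual ℝ X)) → WLP X

/-- If `X` has a biorthogonal system of at least `non(SN)` elements that is small on flat vectors,
then `X` fails the weak Lebesgue property. -/
def LargeSystem (X : Type v) [NormedAddCommGroup X] [NormedSpace ℝ X] : Prop :=
  ∀ (Γ : Type u) (x : Γ → X) (g : Γ → StrongDual ℝ X), Cardinal.lift.{u} nonSN ≤ #Γ →
    Biorthogonal x g → FlatSmall x → ¬ WLP X

theorem result :
    (∀ (X : Type v) [NormedAddCommGroup X] [NormedSpace ℝ X],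
      SmallDual X ∧ LargeSystem.{u, v} X) ∧
    (∀ (p : ℝ≥0∞) [Fact (1 ≤ p)], 1 < p → p ≠ ⊤ → ∀ Γ : Type u,
      WLP (lp (fun _ : Γ => ℝ) p) ↔ #Γ < Cardinal.lift.{u} nonSN) := by
  refine ⟨fun X _ _ => ⟨fun D hD hd => ?_, fun Γ x g hΓ hxg hfl => ?_⟩,
    fun p _ hp1 hp Γ => lp_iff p hp1 hp Γ⟩
  · refine WLP_of_small hD (fun φ : D => (φ : StrongDual ℝ X)) ?_
    rw [Subtype.range_coe]
    exact hd
  · exact not_WLP hΓ x g hxg.1 hxg.2 hfl

end Pool.Agent.Results.MP_abad15_an.BanachSpaces
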